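import Pool.Agent.Y836.VD.Stm

/-!
# Well distributed unit vectors, explicit parameters (for helper836, project VD)
-/

set_option autoImplicit false
open MeasureTheory Set

namespace Pool.Agent.Y177.VD

open Pool.Agent.Results.MP_ad3614_gt.DifferenceUnbounded
open Pool.Agent.Y836.VD

noncomputable section

open Classical in
theorem count2 {E : Type*} [MeasurableSpace E] (μ : Measure E) [IsProbabilityMeasure μ]
    {J : Type*} [Fintype J] (S : J → Set E) (_hS : ∀ j, MeasurableSet (S j)) (p : ℝ) (hp : 0 ≤ p)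
    (hSp : ∀ j, μ (S j) ≤ ENNReal.ofReal p) (N m : ℕ) (G : Set E) (hG : μ Gᶜ = 0)
    (h : (Fintype.card J : ℝ) * (N.choose m : ℝ) * p ^ m < 1) :
    ∃ x : Fin N → E, (∀ i, x i ∈ G) ∧
      ∀ j, (Finset.univ.filter fun i => x i ∈ S j).card < m := by
  set ν : Measure (Fin N → E) := Measure.pi (fun _ : Fin N => μ) with hν
  set B : J → Finset (Fin N) → Set (Fin N → E) := fun j I =>
    Set.univ.pi (fun i => if i ∈ I then S j else univ) with hB
  have hBle : ∀ j (I : Finset (Fin N)), I.card = m → ν (B j I) ≤ (ENNReal.ofReal p) ^ m := by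
    intro j I hI
    rw [hν, hB]
    simp only
    rw [Measure.pi_pi]
    calc ∏ i, μ (if i ∈ I then S j else univ)
        ≤ ∏ i, (if i ∈ I then ENNReal.ofReal p else 1) := by
          apply Finset.prod_le_prod'
          intro i _
          by_cases hi : i ∈ I
          · simp only [hi, if_true]; exact hSp j
          · simp only [hi, if_false]; exact prob_le_one
      _ = (ENNReal.ofReal p) ^ m := by
          rw [Finset.prod_ite_mem, Finset.univ_inter, Finset.prod_const, hI]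
  have h0 : ν (⋃ i : Fin N, (fun x : Fin N → E => x i) ⁻¹' Gᶜ) = 0 := by
    rw [measure_iUnion_null_iff]
    intro i
    exact (Measure.quasiMeasurePreserving_eval (μ := fun _ : Fin N => μ) i).preimage_null hG
  have h1 : ν (⋃ j, ⋃ I ∈ Finset.powersetCard m (Finset.univ : Finset (Fin N)), B j I) < 1 := by
    calc ν (⋃ j, ⋃ I ∈ Finset.powersetCard m (Finset.univ : Finset (Fin N)), B j I)
        ≤ ∑ j, ν (⋃ I ∈ Finset.powersetCard m (Finset.univ : Finset (Fin N)), B j I) :=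
          measure_iUnion_fintype_le _ _
      _ ≤ ∑ j : J, ∑ I ∈ Finset.powersetCard m (Finset.univ : Finset (Fin N)), ν (B j I) :=
          Finset.sum_le_sum fun j _ => measure_biUnion_finset_le _ _
      _ ≤ ∑ j : J, ∑ I ∈ Finset.powersetCard m (Finset.univ : Finset (Fin N)),
            (ENNReal.ofReal p) ^ m :=
          Finset.sum_le_sum fun j _ => Finset.sum_le_sum fun I hI =>
            hBle j I (Finset.mem_powersetCard.1 hI).2
      _ = (Fintype.card J : ENNReal) * (((Finset.powersetCard m (Finset.univ : Finset (Fin N))).card : ENNReal)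
            * (ENNReal.ofReal p) ^ m) := by
          simp only [Finset.sum_const, nsmul_eq_mul, Finset.card_univ]
      _ = ENNReal.ofReal ((Fintype.card J : ℝ) * (N.choose m : ℝ) * p ^ m) := by
          rw [ENNReal.ofReal_mul (by positivity), ENNReal.ofReal_mul (by positivity),
            ENNReal.ofReal_pow hp, ENNReal.ofReal_natCast, ENNReal.ofReal_natCast,
            Finset.card_powersetCard, Finset.card_univ, Fintype.card_fin]
          rw [mul_assoc]
      _ < 1 := by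
          rw [ENNReal.ofReal_lt_one]
          exact h
  have h2 : ν ((⋃ i : Fin N, (fun x : Fin N → E => x i) ⁻¹' Gᶜ) ∪
      (⋃ j, ⋃ I ∈ Finset.powersetCard m (Finset.univ : Finset (Fin N)), B j I)) < 1 :=
    lt_of_le_of_lt (measure_union_le _ _) (by rw [h0, zero_add]; exact h1)
  have h3 : ((⋃ i : Fin N, (fun x : Fin N → E => x i) ⁻¹' Gᶜ) ∪
      (⋃ j, ⋃ I ∈ Finset.powersetCard m (Finset.univ : Finset (Fin N)), B j I)) ≠ univ := by
    intro hu
    rw [hu, measure_univ] at h2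
    exact lt_irrefl _ h2
  obtain ⟨x, hx⟩ := (Set.ne_univ_iff_exists_notMem _).1 h3
  rw [Set.mem_union, not_or] at hx
  obtain ⟨hx1, hx2⟩ := hx
  refine ⟨x, fun i => ?_, fun j => ?_⟩
  · by_contra hi
    exact hx1 (Set.mem_iUnion.2 ⟨i, hi⟩)
  · by_contra hj
    rw [not_lt] at hj
    obtain ⟨I, hI1, hI2⟩ := Finset.exists_subset_card_eq hj
    apply hx2
    refine Set.mem_iUnion.2 ⟨j, Set.mem_iUnion₂.2 ⟨I, Finset.mem_powersetCard.2
      ⟨Finset.subset_univ I, hI2⟩, ?_⟩⟩
    intro i _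
    by_cases hi : i ∈ I
    · simp only [hi, if_true]
      exact (Finset.mem_filter.1 (hI1 hi)).2
    · simp only [hi, if_false]
      exact Set.mem_univ _


/-- the number of points of the net -/
theorem net_num {n k R m K : ℕ} (hn : 3 ≤ n) (hk : 1 ≤ k) (hR : 1 ≤ R) (hRn : R ^ 2 ≤ n)
    (hK : (K : ℝ) < 4 * n * R / √(Real.log n) + 1)
    (hm : 6 * ((n : ℝ) ^ (k + 1) * (9 * √(Real.log n) / R) ^ k) ≤ m) :
    (2 * (K : ℝ) + 1) ^ (n * k) < 2 ^ m := by
  have hn3 : (3 : ℝ) ≤ n := by exact_mod_cast hn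
  have hn0 : (0 : ℝ) < n := by linarith
  have hk1 : (1 : ℝ) ≤ k := by exact_mod_cast hk
  have hR1 : (1 : ℝ) ≤ R := by exact_mod_cast hR
  have hL : 1 ≤ Real.log n := by
    rw [Real.le_log_iff_exp_le hn0]
    exact (Real.exp_one_lt_d9.le.trans (by norm_num)).trans hn3
  have hsL : 1 ≤ √(Real.log n) := Real.one_le_sqrt.2 hL
  set y : ℝ := √(n : ℝ) with hy
  have hyy : y * y = n := Real.mul_self_sqrt hn0.le
  have hy0 : 0 < y := Real.sqrt_pos.2 hn0
  have hy1 : 1 ≤ y := Real.one_le_sqrt.2 (by linarith)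
  have hRy : (R : ℝ) ≤ y := by
    rw [hy]
    apply Real.le_sqrt_of_sq_le
    exact_mod_cast hRn
  have hKb : 2 * (K : ℝ) + 1 ≤ 11 * y ^ 4 := by
    have h1 : 4 * (n : ℝ) * R / √(Real.log n) ≤ 4 * n * R := div_le_self (by positivity) hsL
    have h2 : 4 * (n : ℝ) * R ≤ 4 * y ^ 3 := by
      rw [← hyy]
      calc 4 * (y * y) * (R : ℝ) ≤ 4 * (y * y) * y := by gcongr
        _ = 4 * y ^ 3 := by ring
    have h3 : y ^ 3 ≤ y ^ 4 := pow_le_pow_right₀ hy1 (by norm_num)
    have h4 : 1 ≤ y ^ 4 := one_le_pow₀ hy1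
    linarith
  have hexp : 11 * y ^ 4 < Real.exp (54 * y * Real.log 2) := by
    have h1 : 37 * y ≤ 54 * y * Real.log 2 := by
      have := Real.log_two_gt_d9
      nlinarith
    have h2 : (37 * y) ^ 4 / (Nat.factorial 4 : ℝ) ≤ Real.exp (37 * y) :=
      Real.pow_div_factorial_le_exp (37 * y) (by positivity) 4
    have h3 : 11 * y ^ 4 < (37 * y) ^ 4 / (Nat.factorial 4 : ℝ) := by
      have : (Nat.factorial 4 : ℝ) = 24 := by norm_num [Nat.factorial]
      rw [this, lt_div_iff₀ (by norm_num)]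
      have h5 : 0 < y ^ 4 := by positivity
      nlinarith
    exact h3.trans_le (h2.trans (Real.exp_le_exp.2 h1))
  have hmb : 54 * y * (n * k) ≤ m := by
    refine le_trans ?_ hm
    have h1 : (9 / y) ^ k ≤ (9 * √(Real.log n) / R) ^ k := by
      apply pow_le_pow_left₀ (by positivity)
      rw [div_le_div_iff₀ hy0 (by linarith)]
      have h6 : 9 * (R : ℝ) ≤ 9 * y := by linarith
      nlinarith
    have h2 : (9 : ℝ) * k ≤ 9 ^ k := by
      have := one_add_mul_le_pow (by norm_num : (-2 : ℝ) ≤ 8) k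
      have h9 : (1 + 8 : ℝ) ^ k = 9 ^ k := by norm_num
      rw [h9] at this
      obtain ⟨j, rfl⟩ : ∃ j, k = j + 1 := ⟨k - 1, by omega⟩
      have h10 := one_add_mul_le_pow (by norm_num : (-2 : ℝ) ≤ 8) j
      have h11 : (1 + 8 : ℝ) ^ j = 9 ^ j := by norm_num
      rw [h11] at h10
      rw [pow_succ]
      push_cast
      have : (j : ℝ) + 1 ≤ 9 ^ j := by
        have : (0 : ℝ) ≤ j := Nat.cast_nonneg j
        linarith
      linarith
    have h3 : y ≤ y ^ k := le_self_pow₀ hy1 (by omega)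
    have h4 : (n : ℝ) ^ (k + 1) * (9 / y) ^ k = n * (9 ^ k * y ^ k) := by
      rw [div_pow, pow_succ]
      have : (n : ℝ) ^ k = y ^ k * y ^ k := by rw [← mul_pow, hyy]
      rw [this]
      field_simp
    calc 54 * y * (n * k) = 6 * (n * (9 * k * y)) := by ring
      _ ≤ 6 * (n * (9 ^ k * y ^ k)) := by gcongr
      _ = 6 * ((n : ℝ) ^ (k + 1) * (9 / y) ^ k) := by rw [h4]
      _ ≤ _ := by gcongr
  have hnk : n * k ≠ 0 := Nat.mul_ne_zero (by omega) (by omega)
  calc (2 * (K : ℝ) + 1) ^ (n * k) ≤ (11 * y ^ 4) ^ (n * k) := by gcongr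
    _ < (Real.exp (54 * y * Real.log 2)) ^ (n * k) := by gcongr
    _ = Real.exp ((54 * y * (n * k)) * Real.log 2) := by
        rw [← Real.exp_nat_mul]
        congr 1
        push_cast
        ring
    _ ≤ Real.exp (m * Real.log 2) := by
        apply Real.exp_le_exp.2
        have : 0 < Real.log 2 := Real.log_pos (by norm_num)
        exact mul_le_mul_of_nonneg_right hmb this.le
    _ = 2 ^ m := by
        rw [Real.exp_nat_mul, Real.exp_log (by norm_num)]

/-- the number of subsets -/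
theorem choose_num {N m : ℕ} {p : ℝ} (hp : 0 < p) (hN : 0 < N) (hm : 6 * (N * p) ≤ m) :
    (N.choose m : ℝ) * p ^ m ≤ (1 / 2) ^ m := by
  have hNp : 0 < (N : ℝ) * p := by positivity
  have hm0 : (0 : ℝ) < m := by linarith
  have h1 : (N.choose m : ℝ) ≤ (N : ℝ) ^ m / (m.factorial : ℝ) := Nat.choose_le_pow_div m N
  have h2 : (m : ℝ) ^ m / (m.factorial : ℝ) ≤ Real.exp m :=
    Real.pow_div_factorial_le_exp m hm0.le m
  have hf : (0 : ℝ) < m.factorial := by exact_mod_cast Nat.factorial_pos m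
  calc (N.choose m : ℝ) * p ^ m ≤ (N : ℝ) ^ m / (m.factorial : ℝ) * p ^ m := by gcongr
    _ = ((N : ℝ) * p) ^ m / (m.factorial : ℝ) := by rw [mul_pow]; ring
    _ ≤ ((m : ℝ) / 6) ^ m / (m.factorial : ℝ) := by
        gcongr
        linarith
    _ = (m : ℝ) ^ m / (m.factorial : ℝ) * (1 / 6) ^ m := by rw [div_pow, one_div, inv_pow]; ring
    _ ≤ Real.exp m * (1 / 6) ^ m := by gcongr
    _ = (Real.exp 1 / 6) ^ m := by
        rw [div_pow (Real.exp 1) 6 m, ← Real.exp_nat_mul, mul_one, one_div, inv_pow]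
        ring
    _ ≤ (1 / 2) ^ m := by
        apply pow_le_pow_left₀ (by positivity)
        have := Real.exp_one_lt_d9
        linarith

theorem framek (hslab : S_SLABK) : S_FRAMEK := by
  classical
  intro n k R hn hk hkn hR hRn
  have hn3 : (3 : ℝ) ≤ n := by exact_mod_cast hn
  have hn0r : (0 : ℝ) < n := by linarith
  have hn1r : (1 : ℝ) ≤ n := by linarith
  have hk1 : (1 : ℝ) ≤ k := by exact_mod_cast hk
  have hk0 : (0 : ℝ) < k := by linarith
  have hR1 : (1 : ℝ) ≤ R := by exact_mod_cast hR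
  have hR0 : (0 : ℝ) < R := by linarith
  have hL : 1 ≤ Real.log n := by
    rw [Real.le_log_iff_exp_le hn0r]
    exact (Real.exp_one_lt_d9.le.trans (by norm_num)).trans hn3
  have hsL : 1 ≤ √(Real.log n) := Real.one_le_sqrt.2 hL
  have hsLL : √(Real.log n) ^ 2 = Real.log n := Real.sq_sqrt (by linarith)
  have : Nonempty (Fin n) := ⟨⟨0, by omega⟩⟩
  set l : ℝ := √(Real.log n) with hl
  have hl0 : 0 < l := by linarith
  set y : ℝ := √(n : ℝ) with hy
  have hyy : y ^ 2 = n := Real.sq_sqrt hn0r.le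
  have hy0 : 0 < y := Real.sqrt_pos.2 hn0r
  have hy1 : 1 ≤ y := Real.one_le_sqrt.2 hn1r
  have hRy : (R : ℝ) ≤ y := by
    rw [hy]
    apply Real.le_sqrt_of_sq_le
    exact_mod_cast hRn
  set z : ℝ := √(k : ℝ) with hz
  have hzz : z ^ 2 = k := Real.sq_sqrt hk0.le
  have hz0 : 0 < z := Real.sqrt_pos.2 hk0
  set p : ℝ := (9 * l / R) ^ k with hp
  have hp0 : 0 < p := by positivity
  set s0 : ℝ := z * l / (2 * R * y) with hs0
  have hs0pos : 0 < s0 := by positivity
  set τ : ℝ := l / (4 * R * y) with hτ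
  have hτ0 : 0 < τ := by positivity
  have hτs : 8 * (k * τ ^ 2) = 2 * s0 ^ 2 := by
    rw [← hzz, hτ, hs0]
    field_simp
    ring
  set K : ℕ := ⌈4 * (n : ℝ) * R / l⌉₊ with hK
  have hKr : 4 * (n : ℝ) * R / l ≤ K := Nat.le_ceil _
  have hKpos : (0 : ℝ) < K := lt_of_lt_of_le (by positivity) hKr
  have hK1 : 1 ≤ K := by exact_mod_cast hKpos
  have hKτ : y / K ≤ τ := by
    rw [div_le_iff₀ hKpos]
    have h1 : y = τ * (4 * (n : ℝ) * R / l) := by
      rw [← hyy, hτ]
      field_simp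
    calc y = τ * (4 * (n : ℝ) * R / l) := h1
      _ ≤ τ * K := by gcongr
  set E := EuclideanSpace ℝ (Fin n) with hE
  set v : (Fin n → Fin (2 * K + 1)) → E :=
    fun c => (WithLp.toLp 2 (fun i => (((c i : ℕ) : ℝ) - K) / K) : E) with hv
  set B : Set E := Metric.ball (0 : E) 1 with hB
  have hBm : MeasurableSet B := Metric.isOpen_ball.measurableSet
  have hBpos : volume B ≠ 0 := (Metric.measure_ball_pos volume (0:E) one_pos).ne'
  have hBtop : volume B ≠ ⊤ := measure_ball_lt_top.ne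
  set μ : Measure E := ProbabilityTheory.cond volume B with hμ
  have : IsProbabilityMeasure μ := ProbabilityTheory.cond_isProbabilityMeasure_of_finite hBpos hBtop
  let J := Fin k → (Fin n → Fin (2 * K + 1))
  let Q : J → (Fin k → E) → Prop := fun c ν' => Orthonormal ℝ ν' ∧ ∀ j, ‖ν' j - v (c j)‖ ≤ τ
  let w : J → Fin k → E := fun c => if h : ∃ ν', Q c ν' then Classical.choose h else fun _ => 0
  have hw : ∀ c : J, (∃ ν', Q c ν') → Q c (w c) := by
    intro c h
    have : w c = Classical.choose h := dif_pos h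
    rw [this]
    exact Classical.choose_spec h
  let S : J → Set E := fun c =>
    if ∃ ν', Q c ν' then {x : E | ‖x‖ < 1 ∧ ∑ j, (inner ℝ x (w c j)) ^ 2 ≤ (2 * s0) ^ 2} else ∅
  have hS1 : ∀ c, (∃ ν', Q c ν') →
      S c = {x : E | ‖x‖ < 1 ∧ ∑ j, (inner ℝ x (w c j)) ^ 2 ≤ (2 * s0) ^ 2} := fun c h => if_pos h
  have hS2 : ∀ c, (¬ ∃ ν', Q c ν') → S c = ∅ := fun c h => if_neg h
  have hSm : ∀ c, MeasurableSet (S c) := by
    intro c
    rcases Classical.em (∃ ν', Q c ν') with h | h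
    · rw [hS1 c h]
      apply MeasurableSet.inter
      · exact measurableSet_lt measurable_norm measurable_const
      · have : Continuous fun x : E => ∑ j, (inner ℝ x (w c j)) ^ 2 := by fun_prop
        exact measurableSet_le this.measurable measurable_const
    · rw [hS2 c h]
      exact MeasurableSet.empty
  have hSp : ∀ c, μ (S c) ≤ ENNReal.ofReal p := by
    intro c
    rcases Classical.em (∃ ν', Q c ν') with h | h
    · rw [hS1 c h, hμ, ProbabilityTheory.cond_apply hBm]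
      have h1 := hslab n k (w c) (2 * s0) hk hkn (hw c h).1 (by positivity)
      have h2 : 9 * (2 * s0) * √((n : ℝ) / k) = 9 * l / R := by
        rw [Real.sqrt_div hn0r.le, ← hy, ← hz, hs0]
        field_simp
      rw [h2] at h1
      calc (volume B)⁻¹ * volume (B ∩ {x : E | ‖x‖ < 1 ∧
            ∑ j, (inner ℝ x (w c j)) ^ 2 ≤ (2 * s0) ^ 2})
          ≤ (volume B)⁻¹ * (ENNReal.ofReal p * volume B) := by
            gcongr
            exact (measure_mono inter_subset_right).trans h1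
        _ = ENNReal.ofReal p * ((volume B)⁻¹ * volume B) := by ring
        _ = ENNReal.ofReal p := by rw [ENNReal.inv_mul_cancel hBpos hBtop, mul_one]
    · rw [hS2 c h]
      simp
  set G : Set E := B \ {0} with hG
  have hGc : μ Gᶜ = 0 := by
    rw [hμ, ProbabilityTheory.cond_apply hBm]
    have h1 : B ∩ Gᶜ ⊆ {0} := by
      rintro x ⟨hx1, hx2⟩
      by_contra hx
      exact hx2 ⟨hx1, hx⟩
    have h2 : volume (B ∩ Gᶜ) = 0 := measure_mono_null h1 (measure_singleton _)
    rw [h2, mul_zero]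
  set N : ℕ := n ^ (k + 1) with hN
  have hNr : (N : ℝ) = (n:ℝ) ^ (k + 1) := by rw [hN]; push_cast; ring
  have hN0 : 0 < N := by rw [hN]; exact Nat.pow_pos (by omega)
  have hNpos : (0:ℝ) < N := by exact_mod_cast hN0
  set m : ℕ := ⌈6 * (N * p)⌉₊ with hm
  have hmr : 6 * (N * p) ≤ m := Nat.le_ceil _
  have hcount : (Fintype.card J : ℝ) * (N.choose m : ℝ) * p ^ m < 1 := by
    have h1 : (Fintype.card J : ℝ) = (2 * (K:ℝ) + 1) ^ (n * k) := by
      show (Fintype.card (Fin k → (Fin n → Fin (2 * K + 1))) : ℝ) = _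
      rw [Fintype.card_fun, Fintype.card_fun, Fintype.card_fin, Fintype.card_fin,
        Fintype.card_fin, ← pow_mul]
      push_cast
      ring
    have h2 : (2 * (K:ℝ) + 1) ^ (n * k) < 2 ^ m := by
      apply net_num hn hk hR hRn
      · exact Nat.ceil_lt_add_one (by positivity)
      · rw [← hl, ← hNr]
        exact hmr
    have h3 := choose_num hp0 hN0 hmr
    rw [h1, mul_assoc]
    calc (2 * (K:ℝ) + 1) ^ (n * k) * ((N.choose m : ℝ) * p ^ m)
        ≤ (2 * (K:ℝ) + 1) ^ (n * k) * (1 / 2) ^ m := by gcongr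
      _ < 2 ^ m * (1 / 2) ^ m := by gcongr
      _ = 1 := by rw [← mul_pow]; norm_num
  obtain ⟨x, hxG, hxS⟩ := count2 μ S hSm p hp0.le hSp N m G hGc hcount
  have hx0 : ∀ i, x i ≠ 0 := fun i h => (hxG i).2 h
  have hxn : ∀ i, ‖x i‖ < 1 := fun i => by
    have := (hxG i).1
    rwa [hB, mem_ball_zero_iff] at this
  have hxnp : ∀ i, 0 < ‖x i‖ := fun i => norm_pos_iff.2 (hx0 i)
  have hθ1 : ∀ i, ‖(‖x i‖)⁻¹ • x i‖ = 1 := fun i => by
    rw [norm_smul, norm_inv, norm_norm, inv_mul_cancel₀ (hxnp i).ne']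
  refine ⟨fun i => (‖x i‖)⁻¹ • x i, hθ1, fun ν hν => ?_⟩
  have hc := fun j => netgrid n K hK1 (ν j) (hν.1 j).le
  choose c hc using hc
  have hcs : ∀ j, ‖ν j - v (c j)‖ ≤ τ := fun j => (hc j).trans hKτ
  have hQ : ∃ ν', Q c ν' := ⟨ν, hν, hcs⟩
  have hQw := hw c hQ
  have hdist : ∀ j, ‖ν j - w c j‖ ≤ 2 * τ := by
    intro j
    have h1 : ν j - w c j = (ν j - v (c j)) - (w c j - v (c j)) := by abel
    rw [h1]
    calc ‖(ν j - v (c j)) - (w c j - v (c j))‖ ≤ ‖ν j - v (c j)‖ + ‖w c j - v (c j)‖ :=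
          norm_sub_le _ _
      _ ≤ 2 * τ := by
          have := hcs j
          have := hQw.2 j
          linarith
  set T : Fin N → ℝ := fun i => ∑ j, (inner ℝ ((‖x i‖)⁻¹ • x i) (ν j)) ^ 2 with hT
  have hT0 : ∀ i, 0 ≤ T i := fun i => Finset.sum_nonneg fun j _ => sq_nonneg _
  have hT1 : ∀ i, T i ≤ 1 := by
    intro i
    have h1 := hν.sum_inner_products_le ((‖x i‖)⁻¹ • x i) (s := Finset.univ)
    rw [hθ1 i, one_pow] at h1
    refine le_trans (le_of_eq ?_) h1
    apply Finset.sum_congr rfl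
    intro j _
    rw [Real.norm_eq_abs, sq_abs, real_inner_comm]
  have hTx : ∀ i, ∑ j, (inner ℝ (x i) (ν j)) ^ 2 = ‖x i‖ ^ 2 * T i := by
    intro i
    rw [hT, Finset.mul_sum]
    apply Finset.sum_congr rfl
    intro j _
    rw [real_inner_smul_left, ← mul_pow, ← mul_assoc, mul_inv_cancel₀ (hxnp i).ne', one_mul]
  have hin : ∀ i, T i ≤ s0 ^ 2 → x i ∈ S c := by
    intro i hi
    rw [hS1 c hQ]
    refine ⟨hxn i, ?_⟩
    have h2 : ∑ j, (inner ℝ (x i) (ν j)) ^ 2 ≤ s0 ^ 2 := by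
      rw [hTx]
      have h3 : ‖x i‖ ^ 2 ≤ 1 := pow_le_one₀ (norm_nonneg _) (hxn i).le
      calc ‖x i‖ ^ 2 * T i ≤ 1 * T i := by
            have := hT0 i
            gcongr
        _ ≤ s0 ^ 2 := by rw [one_mul]; exact hi
    have h4 : ∀ j, (inner ℝ (x i) (w c j)) ^ 2 ≤ 2 * (inner ℝ (x i) (ν j)) ^ 2 + 8 * τ ^ 2 := by
      intro j
      have h5 : inner ℝ (x i) (w c j) = inner ℝ (x i) (ν j) - inner ℝ (x i) (ν j - w c j) := by
        rw [inner_sub_right]; ring
      have h6 : |inner ℝ (x i) (ν j - w c j)| ≤ 2 * τ := by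
        calc |inner ℝ (x i) (ν j - w c j)| ≤ ‖x i‖ * ‖ν j - w c j‖ := abs_real_inner_le_norm _ _
          _ ≤ 1 * (2 * τ) := by
              have := hxn i
              have := hdist j
              gcongr
          _ = 2 * τ := one_mul _
      have h7 : (inner ℝ (x i) (ν j - w c j)) ^ 2 ≤ 4 * τ ^ 2 := by
        have h8 : |inner ℝ (x i) (ν j - w c j)| ^ 2 ≤ (2 * τ) ^ 2 :=
          pow_le_pow_left₀ (abs_nonneg _) h6 2
        rw [sq_abs] at h8
        linarith
      rw [h5]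
      nlinarith [sq_nonneg (inner ℝ (x i) (ν j) + inner ℝ (x i) (ν j - w c j))]
    calc ∑ j, (inner ℝ (x i) (w c j)) ^ 2
        ≤ ∑ j, (2 * (inner ℝ (x i) (ν j)) ^ 2 + 8 * τ ^ 2) := Finset.sum_le_sum fun j _ => h4 j
      _ = 2 * ∑ j, (inner ℝ (x i) (ν j)) ^ 2 + 8 * (k * τ ^ 2) := by
          rw [Finset.sum_add_distrib, ← Finset.mul_sum, Finset.sum_const, Finset.card_univ,
            Fintype.card_fin, nsmul_eq_mul]
          ring
      _ ≤ 2 * s0 ^ 2 + 2 * s0 ^ 2 := by rw [hτs]; linarith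
      _ = (2 * s0) ^ 2 := by ring
  set q : ℕ := 8 * n * R ^ 2 with hq
  have hsplit : ∑ i, (1 - T i) ^ q =
      ∑ i ∈ Finset.univ.filter (fun i => x i ∈ S c), (1 - T i) ^ q +
      ∑ i ∈ Finset.univ.filter (fun i => ¬ x i ∈ S c), (1 - T i) ^ q :=
    (Finset.sum_filter_add_sum_filter_not _ _ _).symm
  have hA : ∑ i ∈ Finset.univ.filter (fun i => x i ∈ S c), (1 - T i) ^ q ≤ 6 * (N * p) := by
    have h1 : ∑ i ∈ Finset.univ.filter (fun i => x i ∈ S c), (1 - T i) ^ q ≤
        ∑ i ∈ Finset.univ.filter (fun i => x i ∈ S c), (1:ℝ) := by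
      apply Finset.sum_le_sum
      intro i _
      apply pow_le_one₀
      · linarith [hT1 i]
      · linarith [hT0 i]
    rw [Finset.sum_const, nsmul_eq_mul, mul_one] at h1
    have h2 := hxS c
    rw [hm, Nat.lt_ceil] at h2
    exact h1.trans h2.le
  have hexp : Real.exp (-(s0 ^ 2 * q)) ≤ p := by
    have h1 : s0 ^ 2 * q = (2 * k : ℕ) * Real.log n := by
      rw [hq]
      push_cast
      rw [← hsLL, ← hzz, ← hyy, hs0]
      field_simp
      ring
    rw [h1, Real.exp_neg, Real.exp_nat_mul, Real.exp_log hn0r, pow_mul, ← inv_pow, hp]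
    apply pow_le_pow_left₀ (by positivity)
    rw [← hyy, le_div_iff₀ hR0]
    have h2 : ((y ^ 2) ^ 2)⁻¹ * R ≤ 1 := by
      rw [inv_mul_le_iff₀ (by positivity), mul_one]
      calc (R : ℝ) ≤ y := hRy
        _ ≤ y ^ 4 := le_self_pow₀ hy1 (by norm_num)
        _ = (y ^ 2) ^ 2 := by ring
    linarith
  have hB2 : ∑ i ∈ Finset.univ.filter (fun i => ¬ x i ∈ S c), (1 - T i) ^ q ≤ N * p := by
    have h1 : ∑ i ∈ Finset.univ.filter (fun i => ¬ x i ∈ S c), (1 - T i) ^ q ≤
        ∑ i ∈ Finset.univ.filter (fun i => ¬ x i ∈ S c), p := by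
      apply Finset.sum_le_sum
      intro i hi
      have hi' : s0 ^ 2 < T i := by
        by_contra hcon
        push Not at hcon
        exact (Finset.mem_filter.1 hi).2 (hin i hcon)
      have h3 : 1 - T i ≤ Real.exp (-s0 ^ 2) := by
        have := Real.one_sub_le_exp_neg (s0 ^ 2)
        linarith
      calc (1 - T i) ^ q ≤ (Real.exp (-s0 ^ 2)) ^ q := by
            apply pow_le_pow_left₀ _ h3
            linarith [hT1 i]
        _ = Real.exp (-(s0 ^ 2 * q)) := by
            rw [← Real.exp_nat_mul]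
            congr 1
            ring
        _ ≤ p := hexp
    rw [Finset.sum_const, nsmul_eq_mul] at h1
    refine h1.trans ?_
    gcongr
    have := Finset.card_filter_le (Finset.univ : Finset (Fin N)) (fun i => ¬ x i ∈ S c)
    rwa [Finset.card_univ, Fintype.card_fin] at this
  show ∑ i, (1 - T i) ^ q ≤ 7 * (9 * l / R) ^ k * (n : ℝ) ^ (k + 1)
  rw [hsplit, ← hNr, ← hp]
  linarith

end

end Pool.Agent.Y177.VD
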